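import Mathlib
import Pool.Agent.helper91.Final
set_option autoImplicit false

/-!
# MP_f0334c_ag: the second theorem of Bertini fails for normal F-injective varieties

The variety is `X = Spec R`, where `R` is the even part of
`k[t, x, z, Y] / (Y ^ 2 - h Y - h x)`, `h = z (x ^ 2 + t z ^ 2)`, for the grading by `ℤ/2` in which
`t` is even and `x, z, Y` are odd. The ring `R` is generated by
`t, x ^ 2, x z, z ^ 2, x Y, z Y`, so that `X` is a closed subscheme of `𝔸⁶ ⊂ ℙ⁶`. All the local
rings of `X` are F-injective; but a hyperplane `a₀ X₀ + ⋯ + a₆ X₆ = 0` with `a₁ ≠ 0` meets the line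
`x = z = Y = 0` of `X` in a point at which the section is not F-injective.
-/

universe u

open AlgebraicGeometry CategoryTheory Pool.Agent.H91

namespace Pool.Agent.Results.MP_f0334c_ag.BertiniFails

/-- For every algebraically closed field `k` of characteristic two there are a normal F-injective
variety `X` over `k` and a morphism (even an immersion) `φ : X ⟶ ℙ⁶` over `k` with separably
generated residue field extensions such that `φ⁻¹(H)` is not F-injective for a general
hyperplane `H`; in particular the set of hyperplanes `H` such that `φ⁻¹(H)` is F-injective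
contains no nonempty open subset of the dual projective space. -/
theorem result (k : Type u) [Field k] [IsAlgClosed k] [CharP k 2] :
    ∃ (X : Scheme.{u}) (f : X ⟶ Spec (CommRingCat.of k)) (φ : X ⟶ projSpace 6 k),
      IsVariety f ∧ IsNormalScheme X ∧ IsFInjectiveScheme X 2 ∧
      φ ≫ projSpaceToSpec 6 k = f ∧ IsImmersion φ ∧
      HasSeparablyGeneratedResidueFieldExtensions φ ∧
      (HoldsForGeneralHyperplane 6 k fun a => ¬ IsFInjectiveScheme (hyperplaneSection φ a) 2) ∧
      ¬ HoldsForGeneralHyperplane 6 k fun a => IsFInjectiveScheme (hyperplaneSection φ a) 2 :=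
  bertini_fails k

end Pool.Agent.Results.MP_f0334c_ag.BertiniFails
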